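import Pool.Agent.Helper37.FX.Sigma
import Pool.Agent.Helper14.MEI2.Vol

/-!
# The total mass of the pair measure
-/

namespace Helper37.FX

open Set Metric MeasureTheory Helper80.CW Helper82.CW
open scoped ContDiff Topology RealInnerProductSpace Real ENNReal

section
variable {f : E3 → ℝ} {c : ℝ}

theorem SI_sg2 (h : SSup f c) : SI (sg2 f) = Helper14.MEI2.oddA f c / 2 + π * c ^ 2 := by
  set G := oddpart f c with hG
  have hs := h.oddpart_sm
  have hh := h.oddpart_hom
  have ho := h.oddpart_odd
  rw [← hG] at hs hh ho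
  have e1 : SI (sg2 f) =
      SI (fun x => (1 / 2) * (lap G x ^ 2 - hs2 G x) + ((c / 2) * lap G x + c ^ 2 / 4)) := by
    apply SI_congr
    intro x hx
    have a1 := h.oddpart_lap hx
    have a2 := h.oddpart_hs2 hx
    rw [← hG] at a1 a2
    have a4 : lap f x = lap G x + c := by linarith
    have a5 : hs2 f x = hs2 G x + c * lap f x - c ^ 2 / 2 := by linarith
    simp only [sg2]
    rw [a5, a4]
    ring
  have s1 : Sm (fun x => lap G x ^ 2 - hs2 G x) := (hs.lap.pow 2).sub hs.hs2
  have s5 : Sm (fun x => (1 / 2) * (lap G x ^ 2 - hs2 G x)) := (Sm.const _).mul s1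
  have s6 : Sm (fun x => (c / 2) * lap G x) := (Sm.const _).mul hs.lap
  have s7 : Sm (fun _ => c ^ 2 / 4) := Sm.const _
  rw [e1, SI_add s5 (s6.add s7), SI_add s6 s7, SI_const_mul, SI_const_mul, SI_const]
  have odd_pd2 : ∀ (i j : Fin 3) (x : E3), x ≠ 0 → pd j (pd i G) (-x) = - pd j (pd i G) x := by
    intro i j x hx
    rw [← pd_pd_comp_neg hs i j hx]
    have : (fun y => G (-y)) = fun y => (-1) * G y := by
      ext y
      rw [ho y]
      ring
    rw [this, pd_congr (fun y hy => pd_const_mul (-1) hs i hy) j hx,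
      pd_const_mul (-1) (hs.pd i) j hx]
    ring
  have z2 : SI (lap G) = 0 := by
    have hk : Hom (-1) (fun x => if x = 0 then 0 else lap G x) := by
      intro r hr x hx
      simp only [hx, smul_eq_zero, hr.ne', or_self, if_false]
      have := hh.lap hs r hr x hx
      norm_num at this ⊢
      exact this
    have := SI_odd hk (by
      intro x
      by_cases hx : x = 0
      · simp [hx]
      · simp only [neg_eq_zero, hx, if_false]
        unfold lap
        rw [← Finset.sum_neg_distrib]
        exact Finset.sum_congr rfl (fun i _ => odd_pd2 i i x hx))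
    rw [← this]
    apply SI_congr
    intro x hx
    have hx0 : x ≠ 0 := by
      rintro rfl
      simp at hx
    simp [hx0]
  rw [z2]
  unfold Helper14.MEI2.oddA
  rw [← hG]
  ring

theorem vp_nonneg (h : SSup f c) : 0 ≤ Helper14.MEI2.vp (Helper14.MEI2.oddA f c) c := by
  have h1 := vol_id h
  have h2 : 0 ≤ SI (fun x => f x * (lap f x ^ 2 - hs2 f x)) := by
    unfold SI
    apply integral_nonneg
    intro u
    have hu : (u : E3) ≠ 0 := sph_ne u
    have a1 := sg2_nonneg h hu
    have a2 := h.nonneg (u : E3)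
    simp only [sg2] at a1
    have a3 : 0 ≤ lap f u ^ 2 - hs2 f u := by linarith
    exact mul_nonneg a2 a3
  unfold Helper14.MEI2.vp Helper14.MEI2.oddA
  linarith

theorem vol_Bd (h : SSup f c) :
    volume.real (Bd f) = Helper14.MEI2.vp (Helper14.MEI2.oddA f c) c := by
  have h1 := Helper14.MEI2.volume_Bd_le h
  have h2 := Helper14.MEI2.volume_Bd_ge h
  have h3 : volume (Bd f) = ENNReal.ofReal (Helper14.MEI2.vp (Helper14.MEI2.oddA f c) c) :=
    le_antisymm h1 h2
  unfold Measure.real
  rw [h3, ENNReal.toReal_ofReal (vp_nonneg h)]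

/-- Blaschke's relation -/
theorem sigma_total (h : SSup f 1) :
    (sigma f).real univ = 2 * volume.real (Bd f) + 2 * π / 3 := by
  rw [sigma_univ h, SI_sg2 h, vol_Bd h]
  unfold Helper14.MEI2.vp
  ring

end

end Helper37.FX
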