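import Pool.Agent.Helper80.CW.Body3

/-!
# Change of variables for smooth bodies of constant width

`x ↦ |x| ∇f(x)` maps the unit ball onto the body with support function `f`.
-/

namespace Helper37.FX

open Set Metric MeasureTheory Helper80.CW
open scoped ContDiff Topology RealInnerProductSpace Real

/-- polar coordinates for an integrable function -/
theorem polar_gen {φ : E3 → ℝ} (hφ : Integrable φ) :
    ∫ x : E3, φ x = ∫ r in Ioi (0 : ℝ), r ^ 2 * SI (fun u => φ (r • u)) := by
  have h1 : ∫ x : E3, φ x =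
      ∫ x : ({(0)}ᶜ : Set E3), φ x.1 ∂((volume : Measure E3).comap (↑)) := by
    rw [integral_subtype_comap (measurableSet_singleton _).compl fun x ↦ φ x,
        restrict_compl_singleton]
  have hmp := (volume : Measure E3).measurePreserving_homeomorphUnitSphereProd
  have hfun : (fun x : ({(0)}ᶜ : Set E3) => φ x.1) =
      (fun p : sphere (0 : E3) 1 × Ioi (0 : ℝ) => φ ((p.2 : ℝ) • (p.1 : E3))) ∘
        (homeomorphUnitSphereProd E3) := by
    funext x
    have hx : x.1 ≠ 0 := x.2
    have hn : 0 < ‖x.1‖ := norm_pos_iff.2 hx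
    simp only [Function.comp_apply, homeomorphUnitSphereProd_apply_snd_coe,
      homeomorphUnitSphereProd_apply_fst_coe]
    rw [smul_smul, mul_inv_cancel₀ hn.ne', one_smul]
  have hint0 : Integrable (fun x : ({(0)}ᶜ : Set E3) => φ x.1)
      ((volume : Measure E3).comap (↑)) := by
    have h2 : IntegrableOn φ ({(0)}ᶜ : Set E3) volume := hφ.integrableOn
    rw [IntegrableOn, ← map_comap_subtype_coe (measurableSet_singleton _).compl] at h2
    exact h2.comp_measurable measurable_subtype_coe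
  have hint : Integrable (fun p : sphere (0 : E3) 1 × Ioi (0 : ℝ) => φ ((p.2 : ℝ) • (p.1 : E3)))
      ((volume : Measure E3).toSphere.prod (.volumeIoiPow (Module.finrank ℝ E3 - 1))) := by
    rw [hfun] at hint0
    exact (hmp.integrable_comp_emb (Homeomorph.measurableEmbedding _)).1 hint0
  have h2 : ∫ x : ({(0)}ᶜ : Set E3), φ x.1 ∂((volume : Measure E3).comap (↑)) =
      ∫ p : sphere (0 : E3) 1 × Ioi (0 : ℝ), φ ((p.2 : ℝ) • (p.1 : E3))
        ∂((volume : Measure E3).toSphere.prod (.volumeIoiPow (Module.finrank ℝ E3 - 1))) := by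
    rw [← hmp.integral_comp (Homeomorph.measurableEmbedding _)]
    rw [hfun]
    rfl
  rw [h1, h2, integral_prod_symm _ hint]
  rw [finrank_E3]
  simp only [Nat.add_one_sub_one]
  exact integral_volumeIoiPow (fun r => SI (fun u => φ (r • u)))

/-- the gradient as a point of space -/
noncomputable def gr (f : E3 → ℝ) (x : E3) : E3 := WithLp.toLp 2 (fun i => pd i f x)

theorem gr_apply (f : E3 → ℝ) (x : E3) (i : Fin 3) : gr f x i = pd i f x := rfl

/-- the determinant of the curvature matrix on the unit sphere -/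
noncomputable def sg2 (f : E3 → ℝ) (x : E3) : ℝ := (lap f x ^ 2 - hs2 f x) / 2

section
variable {f : E3 → ℝ} {c : ℝ}

theorem Fm_smul (h : SSup f c) {r : ℝ} (hr : 0 < r) {x : E3} (hx : ‖x‖ = 1) :
    Fm f (r • x) = r • gr f x := by
  have hx0 : x ≠ 0 := by
    rintro rfl
    simp at hx
  ext i
  rw [Fm_apply, norm_smul, hx, PiLp.smul_apply, gr_apply]
  have h1 := (h.hom.pd h.sm i) r hr x hx0
  simp only [sub_self, zpow_zero, one_mul] at h1
  rw [h1]
  simp [abs_of_pos hr]

theorem sg2_nonneg (h : SSup f c) {x : E3} (hx : x ≠ 0) : 0 ≤ sg2 f x := by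
  have key : ∀ i j : Fin 3, i ≠ j →
      0 ≤ pd i (pd i f) x * pd j (pd j f) x - pd j (pd i f) x ^ 2 := by
    intro i j hij
    have hp : ∀ a b : ℝ, 0 ≤ a ^ 2 * pd i (pd i f) x + 2 * a * b * pd j (pd i f) x
        + b ^ 2 * pd j (pd j f) x := by
      intro a b
      have h1 := h.psd hx (a • e i + b • e j)
      have hs := h.symm hx i j
      have e1 : ∑ k, ∑ l, (a • e i + b • e j) k * (a • e i + b • e j) l * pd l (pd k f) x =
          a ^ 2 * pd i (pd i f) x + 2 * a * b * pd j (pd i f) x + b ^ 2 * pd j (pd j f) x := by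
        have s01 := h.symm hx 0 1
        have s02 := h.symm hx 0 2
        have s12 := h.symm hx 1 2
        fin_cases i <;> fin_cases j <;> simp_all [Fin.sum_univ_three, e] <;> ring
      rw [e1] at h1
      exact h1
    have ha := hp 1 0
    have hb := hp 0 1
    have hc := hp (pd j (pd i f) x) (-(pd i (pd i f) x))
    have hd := hp (pd j (pd j f) x) (-(pd j (pd i f) x))
    have he := hp 1 1
    have hf' := hp 1 (-1)
    simp only [one_pow, one_mul, mul_zero, zero_mul, zero_pow two_ne_zero, add_zero,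
      zero_add] at ha hb
    rcases eq_or_lt_of_le ha with h0 | h0
    · rw [← h0] at hc hd he hf' ⊢
      have hk : ∀ t : ℝ, 0 ≤ 2 * t * pd j (pd i f) x + pd j (pd j f) x := by
        intro t
        have := hp t 1
        rw [← h0] at this
        linarith
      have k1 := hk (-(pd j (pd j f) x + 1) / (2 * pd j (pd i f) x))
      by_cases hz : pd j (pd i f) x = 0
      · rw [hz]; simp
      · exfalso
        have : 2 * (-(pd j (pd j f) x + 1) / (2 * pd j (pd i f) x)) * pd j (pd i f) x =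
            -(pd j (pd j f) x + 1) := by
          field_simp
        rw [this] at k1
        linarith
    · have : 0 ≤ pd i (pd i f) x * (pd i (pd i f) x * pd j (pd j f) x - pd j (pd i f) x ^ 2) := by
        nlinarith [hc]
      exact nonneg_of_mul_nonneg_right this h0
  have k01 := key 0 1 (by decide)
  have k02 := key 0 2 (by decide)
  have k12 := key 1 2 (by decide)
  have s01 := h.symm hx 0 1
  have s02 := h.symm hx 0 2
  have s12 := h.symm hx 1 2
  unfold sg2 lap hs2
  simp only [Fin.sum_univ_three]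
  rw [s01] at k01
  rw [s02] at k02
  rw [s12] at k12
  rw [s01, s02, s12]
  nlinarith [k01, k02, k12]

theorem det_smul (h : SSup f c) {r : ℝ} (hr : 0 < r) {x : E3} (hx : ‖x‖ = 1) :
    (fderiv ℝ (Fm f) (r • x)).det = f x * sg2 f x := by
  have hx0 : x ≠ 0 := by
    rintro rfl
    simp at hx
  rw [h.det_eq (smul_ne_zero hr.ne' hx0)]
  have a := (h.hom.lap h.sm) r hr x hx0
  have b := (h.hom.hs2 h.sm) r hr x hx0
  have d := h.hom r hr x hx0
  norm_num at a b d
  rw [a, b, d, norm_smul, hx]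
  unfold sg2
  simp only [Real.norm_eq_abs, abs_of_pos hr, mul_one]
  field_simp

theorem det_nonneg (h : SSup f c) {x : E3} (hx : x ≠ 0) : 0 ≤ (fderiv ℝ (Fm f) x).det := by
  have h1 := sg2_nonneg h hx
  rw [h.det_eq hx]
  unfold sg2 at h1
  have := h.nonneg x
  have h2 : ‖x‖ * f x * (lap f x ^ 2 - hs2 f x) / 2 = ‖x‖ * f x * ((lap f x ^ 2 - hs2 f x) / 2) := by
    ring
  rw [h2]
  positivity

/-- the body -/
def Bd (f : E3 → ℝ) : Set E3 := {y : E3 | ∀ z, ⟪y, z⟫ ≤ f z}

theorem Fm_surj (h : SSup f c) (hp : ∀ x, x ≠ 0 → 0 < f x) {y : E3} (hy : y ∈ Bd f)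
    (hy0 : y ≠ 0) : ∃ x : E3, x ≠ 0 ∧ ‖x‖ ≤ 1 ∧ Fm f x = y := by
  have hf : ContinuousOn f (sphere (0 : E3) 1) := by
    intro x hx
    have hx0 : x ≠ 0 := by
      rintro rfl
      simp at hx
    exact (h.sm x hx0).continuousAt.continuousWithinAt
  have hne : ∀ x ∈ sphere (0 : E3) 1, f x ≠ 0 := by
    intro x hx
    have hx0 : x ≠ 0 := by
      rintro rfl
      simp at hx
    exact (hp x hx0).ne'
  have hc : ContinuousOn (fun z => ⟪y, z⟫ / f z) (sphere (0 : E3) 1) :=
    (Continuous.continuousOn (by fun_prop)).div hf hne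
  obtain ⟨z0, hz0, hmax⟩ := (isCompact_sphere (0 : E3) 1).exists_isMaxOn
    (NormedSpace.sphere_nonempty.2 zero_le_one) hc
  have hz1 : ‖z0‖ = 1 := by simpa using hz0
  have hz00 : z0 ≠ 0 := by
    rintro rfl
    simp at hz1
  set ρ := ⟪y, z0⟫ / f z0 with hρ
  have hfz0 := hp z0 hz00
  have hall : ∀ z, ⟪y, z⟫ ≤ ρ * f z := by
    intro z
    by_cases hz : z = 0
    · rw [hz, h.zero]; simp
    · have hn : 0 < ‖z‖ := norm_pos_iff.2 hz
      have h1 : (‖z‖⁻¹ • z) ∈ sphere (0 : E3) 1 := by
        simp [norm_smul, hn.ne']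
      have h2 := hmax h1
      simp only [mem_ofPred_eq] at h2
      rw [inner_smul_right, h.pos_smul (inv_nonneg.2 hn.le)] at h2
      have h3 := hp z hz
      have h4 : ‖z‖⁻¹ * ⟪y, z⟫ / (‖z‖⁻¹ * f z) = ⟪y, z⟫ / f z := by
        field_simp
      rw [h4, div_le_iff₀ h3] at h2
      exact h2
  have hρ1 : ρ ≤ 1 := by
    rw [hρ, div_le_one hfz0]
    exact hy z0
  have hρ0 : 0 < ρ := by
    have h1 := hall y
    have h2 : 0 < ⟪y, y⟫ := real_inner_self_pos.2 hy0
    have h3 := hp y hy0
    by_contra hneg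
    have : ρ * f y ≤ 0 := mul_nonpos_of_nonpos_of_nonneg (not_lt.1 hneg) h3.le
    linarith
  refine ⟨ρ • z0, smul_ne_zero hρ0.ne' hz00, ?_, ?_⟩
  · rw [norm_smul, hz1, Real.norm_eq_abs, abs_of_pos hρ0, mul_one]
    exact hρ1
  · rw [Fm_smul h hρ0 hz1]
    have hloc : IsLocalMax (fun z => ⟪y, z⟫ - ρ * f z) z0 := by
      apply Filter.Eventually.of_forall
      intro z
      have h1 := hall z
      have h2 : ρ * f z0 = ⟪y, z0⟫ := by rw [hρ]; field_simp
      simp only
      linarith
    ext i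
    have h1 : HasDerivAt (fun t : ℝ => f (z0 + t • e i)) (pd i f z0) 0 := by
      have := hasDerivAt_line h.sm hz00 (e i)
      have h5 : ∑ j, (e i) j * pd j f z0 = pd i f z0 := by
        simp [e]
      rwa [h5] at this
    have h2 : HasDerivAt (fun t : ℝ => ⟪y, z0 + t • e i⟫) (y i) 0 := by
      have h6 : (fun t : ℝ => ⟪y, z0 + t • e i⟫) = fun t : ℝ => ⟪y, z0⟫ + t * y i := by
        funext t
        rw [inner_add_right, inner_smul_right]
        have h7 : ⟪y, e i⟫ = y i := by
          rw [PiLp.inner_apply]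
          simp [e]
        rw [h7]
      rw [h6]
      simpa using ((hasDerivAt_id (0 : ℝ)).mul_const (y i)).const_add ⟪y, z0⟫
    have h3 : IsLocalMax (fun t : ℝ => ⟪y, z0 + t • e i⟫ - ρ * f (z0 + t • e i)) 0 := by
      apply Filter.Eventually.of_forall
      intro t
      have h1 := hall (z0 + t • e i)
      have h2 : ρ * f z0 = ⟪y, z0⟫ := by rw [hρ]; field_simp
      simp only [zero_smul, add_zero]
      linarith
    have h4 := h3.hasDerivAt_eq_zero (h2.sub (h1.const_mul ρ))
    rw [PiLp.smul_apply, gr_apply]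
    simp only [smul_eq_mul]
    linarith

/-- the open set where the parametrisation is a diffeomorphism -/
def Ds (f : E3 → ℝ) : Set E3 := {x | (x ≠ 0 ∧ ‖x‖ < 1) ∧ (fderiv ℝ (Fm f) x).det ≠ 0}

theorem Ds_open (h : SSup f c) : IsOpen (Ds f) := by
  set U : Set E3 := {x | x ≠ 0} with hU
  have hUo : IsOpen U := isOpen_ne
  have hDc : ContinuousOn (fun x => (fderiv ℝ (Fm f) x).det) U := by
    intro x hx
    have h1 : ContinuousAt (fderiv ℝ (Fm f)) x :=
      ((contDiffAt_Fm h.sm hx).fderiv_right (m := ∞) (by simp)).continuousAt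
    exact (ContinuousLinearMap.continuous_det.continuousAt.comp h1).continuousWithinAt
  have h1 : Ds f = (U ∩ ball 0 1) ∩ (U ∩ (fun x => (fderiv ℝ (Fm f) x).det) ⁻¹' {0}ᶜ) := by
    ext x
    simp only [Ds, hU, mem_ofPred_eq, mem_inter_iff, mem_ball_zero_iff, mem_preimage,
      mem_compl_iff, mem_singleton_iff]
    tauto
  rw [h1]
  exact (hUo.inter isOpen_ball).inter (hDc.isOpen_inter_preimage hUo isOpen_compl_singleton)

theorem Ds_inj (h : SSup f c) : InjOn (Fm f) (Ds f) := by
  apply h.inj.mono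
  intro x hx
  exact ⟨hx.1.1, hx.2⟩

theorem Ds_image_sub (h : SSup f c) : Fm f '' Ds f ⊆ Bd f := by
  rintro _ ⟨x, hx, rfl⟩ z
  exact h.Fm_mem hx.1.1 hx.1.2.le z

theorem Ds_image_ae (h : SSup f c) (hp : ∀ x, x ≠ 0 → 0 < f x) :
    volume (Bd f \ Fm f '' Ds f) = 0 := by
  have hsub : Bd f \ Fm f '' Ds f ⊆
      ({0} ∪ Fm f '' {x | x ≠ 0 ∧ (fderiv ℝ (Fm f) x).det = 0}) ∪ Fm f '' sphere 0 1 := by
    rintro y ⟨hy, hny⟩
    by_cases hy0 : y = 0
    · exact Or.inl (Or.inl hy0)
    · obtain ⟨x, hx0, hx1, rfl⟩ := Fm_surj h hp hy hy0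
      by_cases hd : (fderiv ℝ (Fm f) x).det = 0
      · exact Or.inl (Or.inr ⟨x, ⟨hx0, hd⟩, rfl⟩)
      · rcases eq_or_lt_of_le hx1 with h1 | h1
        · exact Or.inr ⟨x, by simpa using h1, rfl⟩
        · exact absurd ⟨x, ⟨⟨hx0, h1⟩, hd⟩, rfl⟩ hny
  refine measure_mono_null hsub ?_
  refine measure_union_null (measure_union_null (by simp) ?_) ?_
  · exact addHaar_image_eq_zero_of_det_fderivWithin_eq_zero volume
      (f' := fun x => fderiv ℝ (Fm f) x)
      (fun x hx => (Fm_diffAt h.sm hx.1).hasFDerivAt.hasFDerivWithinAt) (fun x hx => hx.2)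
  · refine addHaar_image_eq_zero_of_differentiableOn_of_addHaar_eq_zero volume ?_ ?_
    · intro x hx
      have hx0 : x ≠ 0 := by
        rintro rfl
        simp at hx
      exact (Fm_diffAt h.sm hx0).differentiableWithinAt
    · exact Measure.addHaar_sphere volume 0 1

/-- change of variables -/
theorem int_Bd (h : SSup f c) (hp : ∀ x, x ≠ 0 → 0 < f x) {φ : E3 → ℝ}
    (hφ : IntegrableOn φ (Bd f)) :
    ∫ y in Bd f, φ y =
      ∫ r in Ioo (0 : ℝ) 1, r ^ 2 * SI (fun u => φ (r • gr f u) * (f u * sg2 f u)) := by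
  have hae : Fm f '' Ds f =ᵐ[volume] Bd f := by
    refine Filter.EventuallyLE.antisymm ?_ ?_
    · exact (Ds_image_sub h).eventuallyLE
    · exact ae_le_set.2 (Ds_image_ae h hp)
  have hder : ∀ x ∈ Ds f, HasFDerivWithinAt (Fm f) (fderiv ℝ (Fm f) x) (Ds f) x :=
    fun x hx => (Fm_diffAt h.sm hx.1.1).hasFDerivAt.hasFDerivWithinAt
  have hms := (Ds_open h).measurableSet
  rw [← setIntegral_congr_set hae]
  rw [integral_image_eq_integral_abs_det_fderiv_smul volume hms hder (Ds_inj h) φ]
  have hi : IntegrableOn φ (Fm f '' Ds f) := hφ.mono_set (Ds_image_sub h)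
  rw [integrableOn_image_iff_integrableOn_abs_det_fderiv_smul volume hms hder (Ds_inj h)] at hi
  rw [← integral_indicator hms]
  rw [polar_gen ((integrable_indicator_iff hms).2 hi)]
  have hIoo : ∫ r in Ioi (0 : ℝ), r ^ 2 * SI (fun u =>
      (Ds f).indicator (fun x => |(fderiv ℝ (Fm f) x).det| • φ (Fm f x)) (r • u)) =
      ∫ r in Ioo (0 : ℝ) 1, r ^ 2 * SI (fun u =>
      (Ds f).indicator (fun x => |(fderiv ℝ (Fm f) x).det| • φ (Fm f x)) (r • u)) := by
    apply setIntegral_eq_of_subset_of_forall_sdiff_eq_zero measurableSet_Ioi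
    · intro r hr
      exact hr.1
    · intro r hr
      have hr1 : 1 ≤ r := by
        by_contra hlt
        exact hr.2 ⟨hr.1, not_le.1 hlt⟩
      have : SI (fun u =>
          (Ds f).indicator (fun x => |(fderiv ℝ (Fm f) x).det| • φ (Fm f x)) (r • u)) =
          SI (fun u => 0) := by
        apply SI_congr
        intro x hx
        apply indicator_of_notMem
        intro hmem
        have h2 := hmem.1.2
        rw [norm_smul, hx, Real.norm_eq_abs, abs_of_pos hr.1] at h2
        linarith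
      rw [this]
      simp [SI]
  rw [hIoo]
  apply setIntegral_congr_fun measurableSet_Ioo
  intro r hr
  simp only
  congr 1
  apply SI_congr
  intro x hx
  have hx0 : x ≠ 0 := by
    rintro rfl
    simp at hx
  have hd := det_smul h hr.1 hx
  by_cases hm : (r • x) ∈ Ds f
  · rw [indicator_of_mem hm, abs_of_nonneg (det_nonneg h hm.1.1), hd, Fm_smul h hr.1 hx,
      smul_eq_mul]
    ring
  · rw [indicator_of_notMem hm]
    have h0 : (fderiv ℝ (Fm f) (r • x)).det = 0 := by
      by_contra hne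
      apply hm
      refine ⟨⟨smul_ne_zero hr.1.ne' hx0, ?_⟩, hne⟩
      rw [norm_smul, hx, Real.norm_eq_abs, abs_of_pos hr.1, mul_one]
      exact hr.2
    rw [← hd, h0]
    ring

end

end Helper37.FX
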