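import Pool.Agent.Helper37.FX.Blaschke
import Pool.Agent.Helper47.MEI.Flux2
import Pool.Agent.Helper22.MEI.Sig

/-!
# The pair measure: pointwise facts, flux in the cells, total mass
-/

namespace Helper37.FX

open Set Metric MeasureTheory Helper80.CW Helper22.Sig
open scoped ContDiff Topology RealInnerProductSpace Real ENNReal

section
variable {f : E3 → ℝ} {c : ℝ}

/-- flux on the whole space -/
theorem sigma_flux (h : SSup f 1) (hp : ∀ x, x ≠ 0 → 0 < f x) {G : E3 → E3}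
    (hG : ContDiff ℝ ∞ G) :
    ∫ z, ⟪G z.1, z.1 - z.2⟫ ∂(sigma f) = ∫ x in Bd f, dvg G x := by
  have hGi : ∀ i : Fin 3, ContDiff ℝ ∞ (fun y => G y i) := fun i =>
    (EuclideanSpace.proj (𝕜 := ℝ) i : E3 →L[ℝ] ℝ).contDiff.comp hG
  have h1 := Helper47.MEI.flux h hp (G := fun i y => G y i) hGi
  have hc : Continuous (fun z : E3 × E3 => ⟪G z.1, z.1 - z.2⟫) := by
    have := hG.continuous
    fun_prop
  rw [integral_sigma h hc.aestronglyMeasurable]
  have e1 : SI (fun u => ⟪G (gr f u, gr f u - u).1, (gr f u, gr f u - u).1 -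
      (gr f u, gr f u - u).2⟫ * sg2 f u) =
      SI (fun x => (∑ i, G (gr f x) i * x i) * sg2 f x) := by
    apply SI_congr
    intro x _
    simp only [sub_sub_cancel]
    rw [PiLp.inner_apply]
    congr 1
    apply Finset.sum_congr rfl
    intro i _
    simp [mul_comm]
  have e2 : ∀ x, dvg G x = Helper47.MEI.dv (fun i y => G y i) x := by
    intro x
    rw [dvg_pd (hG.differentiable (by simp) x)]
    rfl
  simp only at e1
  rw [e1, h1]
  simp only [e2]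

/-- **the pair measure** of a smooth body of constant width one -/
theorem sigma_exists (h : SSup f 1) (hp : ∀ x, x ≠ 0 → 0 < f x) :
    ∃ σ : Measure (E3 × E3), IsFiniteMeasure σ ∧
      (∀ᵐ z ∂σ, z.1 ∈ Bd f ∧ z.2 ∈ Bd f ∧ ‖z.1 - z.2‖ = 1 ∧
        ∀ y ∈ Bd f, ⟪y, z.1 - z.2⟫ ≤ ⟪z.1, z.1 - z.2⟫) ∧
      (∀ G : E3 → E3, ContDiff ℝ ∞ G →
        ∫ z, ⟪G z.1, z.1 - z.2⟫ ∂σ = ∫ x in Bd f, dvg G x) ∧
      (∀ (k : ℕ) (ν : Fin k → E3) (d : Fin k → ℝ) (G : E3 → E3), ContDiff ℝ ∞ G → Tang ν d G →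
        ∫ z in {z : E3 × E3 | z.1 ∈ Cel ν d}, ⟪G z.1, z.1 - z.2⟫ ∂σ =
          ∫ x in Bd f ∩ Cel ν d, dvg G x) ∧
      σ.real univ = 2 * volume.real (Bd f) + 2 * π / 3 := by
  haveI : Fact (Sm f) := ⟨h.sm⟩
  have h1 := sigma_ae h
  have h2 : ∀ᵐ z ∂(sigma f), z.1 ∈ Bd f ∧ z.2 ∈ Bd f := by
    filter_upwards [h1] with z hz
    exact ⟨hz.1, hz.2.1⟩
  refine ⟨sigma f, inferInstance, h1, fun G hG => sigma_flux h hp hG, ?_, sigma_total h⟩
  intro k ν d G hG hT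
  exact S2_cell (n := (⊤ : ℕ∞)) (Bd_compact h) h2 le_top
    (fun G hG => sigma_flux h hp hG) ν d hG hT

end

end Helper37.FX
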