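import Pool.Agent.Helper37.FX.CV

/-!
# The pair measure of a smooth body of constant width one
-/

namespace Helper37.FX

open Set Metric MeasureTheory Helper80.CW
open scoped ContDiff Topology RealInnerProductSpace Real ENNReal

/-- the pairs of opposite contact points, weighted by the surface area -/
noncomputable def sigma (f : E3 → ℝ) : Measure (E3 × E3) :=
  Measure.map (fun u : sphere (0 : E3) 1 => (gr f u, gr f u - (u : E3)))
    ((volume : Measure E3).toSphere.withDensity (fun u => ENNReal.ofReal (sg2 f u)))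

section
variable {f : E3 → ℝ} {c : ℝ}

theorem sph_ne (u : sphere (0 : E3) 1) : (u : E3) ≠ 0 := by
  intro h
  have := u.2
  rw [h] at this
  simp at this

theorem sph_norm (u : sphere (0 : E3) 1) : ‖(u : E3)‖ = 1 := by simpa using u.2

theorem gr_cont (hs : Sm f) : Continuous (fun u : sphere (0 : E3) 1 => gr f u) := by
  have h1 : ∀ i, Continuous (fun u : sphere (0 : E3) 1 => pd i f u) :=
    fun i => (hs.pd i).continuous_sphere
  exact (PiLp.continuous_toLp 2 _).comp (continuous_pi h1)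

theorem sg2_sm (hs : Sm f) : Sm (sg2 f) := by
  have h1 : Sm (fun x => (1 / 2) * (lap f x * lap f x - hs2 f x)) :=
    (Sm.const (1 / 2)).mul ((hs.lap.mul hs.lap).sub hs.hs2)
  intro x hx
  refine (h1 x hx).congr_of_eventuallyEq (Filter.Eventually.of_forall fun y => ?_)
  simp only [sg2]
  ring

theorem sg2_cont (hs : Sm f) : Continuous (fun u : sphere (0 : E3) 1 => sg2 f u) :=
  (sg2_sm hs).continuous_sphere

theorem pair_cont (hs : Sm f) :
    Continuous (fun u : sphere (0 : E3) 1 => (gr f u, gr f u - (u : E3))) :=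
  (gr_cont hs).prodMk ((gr_cont hs).sub continuous_subtype_val)

/-- integration against the pair measure -/
theorem integral_sigma (h : SSup f c) {F : E3 × E3 → ℝ}
    (hF : AEStronglyMeasurable F (sigma f)) :
    ∫ z, F z ∂(sigma f) = SI (fun u => F (gr f u, gr f u - u) * sg2 f u) := by
  unfold sigma at hF ⊢
  rw [integral_map (pair_cont h.sm).measurable.aemeasurable hF]
  rw [integral_withDensity_eq_integral_toReal_smul
    (sg2_cont h.sm).measurable.ennreal_ofReal (by simp)]
  unfold SI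
  apply integral_congr_ae
  refine Filter.Eventually.of_forall fun u => ?_
  simp only [smul_eq_mul]
  rw [ENNReal.toReal_ofReal (sg2_nonneg h (sph_ne u))]
  ring

instance sigma_finite (f : E3 → ℝ) [hf : Fact (Sm f)] : IsFiniteMeasure (sigma f) := by
  have h1 : IsFiniteMeasure ((volume : Measure E3).toSphere.withDensity
      (fun u => ENNReal.ofReal (sg2 f u))) :=
    isFiniteMeasure_withDensity_ofReal
      ((sg2_cont hf.out).integrable_of_hasCompactSupport
        (HasCompactSupport.of_compactSpace _)).2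
  unfold sigma
  infer_instance

theorem sigma_univ (h : SSup f c) : (sigma f).real univ = SI (sg2 f) := by
  haveI : Fact (Sm f) := ⟨h.sm⟩
  have h1 := integral_sigma h (F := fun _ => 1) aestronglyMeasurable_const
  simp only [integral_const, smul_eq_mul, mul_one, one_mul] at h1
  rw [h1]

/-- almost everywhere statements -/
theorem ae_sigma (h : SSup f c) {P : E3 × E3 → Prop} (hP : MeasurableSet {z | P z})
    (hu : ∀ u : E3, ‖u‖ = 1 → P (gr f u, gr f u - u)) : ∀ᵐ z ∂(sigma f), P z := by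
  unfold sigma
  rw [ae_map_iff (pair_cont h.sm).measurable.aemeasurable hP]
  exact Filter.Eventually.of_forall fun u => hu u (sph_norm u)

theorem gr_inner (f : E3 → ℝ) (x z : E3) : ⟪gr f x, z⟫ = ∑ i, z i * pd i f x := by
  rw [PiLp.inner_apply]
  apply Finset.sum_congr rfl
  intro i _
  simp [gr_apply]

theorem gr_mem (h : SSup f c) {u : E3} (hu : u ≠ 0) : gr f u ∈ Bd f := by
  intro z
  rw [gr_inner]
  exact h.subgrad hu z

theorem gr_self (h : SSup f c) {u : E3} (hu : u ≠ 0) : ⟪gr f u, u⟫ = f u := by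
  rw [gr_inner]
  exact h.euler hu

theorem gr_neg (h : SSup f 1) {u : E3} (hu : ‖u‖ = 1) : gr f (-u) = gr f u - u := by
  have hu0 : u ≠ 0 := by
    rintro rfl
    simp at hu
  ext i
  simp only [PiLp.sub_apply, gr_apply]
  have h1 : pd i (fun y => f (-y)) u = - pd i f (-u) := pd_comp_neg h.sm i hu0
  have h2 : pd i (fun y => f (-y)) u = pd i (fun y => ‖y‖ - f y) u := by
    apply pd_congr _ i hu0
    intro y _
    have := h.width y
    linarith
  rw [pd_sub Sm.norm h.sm i hu0, pd_norm i hu0, hu] at h2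
  linarith

theorem opp_mem (h : SSup f 1) {u : E3} (hu : ‖u‖ = 1) : gr f u - u ∈ Bd f := by
  rw [← gr_neg h hu]
  apply gr_mem h
  intro h0
  have : ‖-u‖ = 1 := by rw [norm_neg]; exact hu
  rw [h0] at this
  simp at this

theorem Bd_convex (f : E3 → ℝ) : Convex ℝ (Bd f) := by
  intro x hx y hy a b ha hb hab z
  rw [inner_add_left, inner_smul_left, inner_smul_left]
  have h1 := hx z
  have h2 := hy z
  simp only [conj_trivial]
  calc a * ⟪x, z⟫ + b * ⟪y, z⟫ ≤ a * f z + b * f z := by
        apply add_le_add (mul_le_mul_of_nonneg_left h1 ha) (mul_le_mul_of_nonneg_left h2 hb)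
    _ = f z := by rw [← add_mul, hab, one_mul]

theorem Bd_dist (h : SSup f 1) {x y : E3} (hx : x ∈ Bd f) (hy : y ∈ Bd f) : ‖x - y‖ ≤ 1 := by
  have h1 := hx (x - y)
  have h2 := hy (-(x - y))
  have h3 := h.width (x - y)
  rw [inner_neg_right] at h2
  have h4 : ⟪x - y, x - y⟫ = ⟪x, x - y⟫ - ⟪y, x - y⟫ := inner_sub_left _ _ _
  rw [real_inner_self_eq_norm_sq] at h4
  have h5 : ‖x - y‖ ^ 2 ≤ ‖x - y‖ := by linarith
  by_contra hlt
  have h6 : 1 < ‖x - y‖ := not_le.1 hlt
  nlinarith

theorem Bd_compact (h : SSup f 1) : IsCompact (Bd f) := by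
  have hcl : IsClosed (Bd f) := by
    have : Bd f = ⋂ z, {y | ⟪y, z⟫ ≤ f z} := by
      ext y
      simp [Bd]
    rw [this]
    exact isClosed_iInter fun z => isClosed_le (by fun_prop) continuous_const
  have h0 : (0 : E3) ∈ Bd f := by
    intro z
    simpa using h.nonneg z
  have hb : Bd f ⊆ closedBall 0 1 := by
    intro y hy
    have := Bd_dist h hy h0
    simpa using this
  exact (isCompact_closedBall 0 1).of_isClosed_subset hcl hb

/-- the pointwise facts -/
theorem sigma_ae (h : SSup f 1) : ∀ᵐ z ∂(sigma f), z.1 ∈ Bd f ∧ z.2 ∈ Bd f ∧ ‖z.1 - z.2‖ = 1 ∧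
    ∀ y ∈ Bd f, ⟪y, z.1 - z.2⟫ ≤ ⟪z.1, z.1 - z.2⟫ := by
  have hK := (Bd_compact h).isClosed
  refine ae_sigma h ?_ ?_
  · have e1 : {z : E3 × E3 | z.1 ∈ Bd f ∧ z.2 ∈ Bd f ∧ ‖z.1 - z.2‖ = 1 ∧
        ∀ y ∈ Bd f, ⟪y, z.1 - z.2⟫ ≤ ⟪z.1, z.1 - z.2⟫} =
        (Prod.fst ⁻¹' Bd f) ∩ ((Prod.snd ⁻¹' Bd f) ∩ ({z : E3 × E3 | ‖z.1 - z.2‖ = 1} ∩
          ⋂ y ∈ Bd f, {z : E3 × E3 | ⟪y, z.1 - z.2⟫ ≤ ⟪z.1, z.1 - z.2⟫})) := by
      ext z
      simp
    rw [e1]
    apply IsClosed.measurableSet
    apply (hK.preimage continuous_fst).inter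
    apply (hK.preimage continuous_snd).inter
    apply IsClosed.inter
    · exact isClosed_eq (by fun_prop) continuous_const
    · exact isClosed_biInter fun y _ => isClosed_le (by fun_prop) (by fun_prop)
  · intro u hu
    have hu0 : u ≠ 0 := by
      rintro rfl
      simp at hu
    refine ⟨gr_mem h hu0, opp_mem h hu, ?_, ?_⟩
    · simpa using hu
    · intro y hy
      simp only [sub_sub_cancel]
      rw [gr_self h hu0]
      exact hy u

end

end Helper37.FX
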